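import Pool.Agent.N870.EC.Stm2

/-!
# EC/CARDG: the number of the curves with a given parametrisation
-/

set_option autoImplicit false

namespace Pool.Agent.N713.EC

open Finset Pool.Agent.N870.EC
open Pool.Agent.W307.RT (Cv)

theorem t_CARDG : Pool.Agent.N870.EC.S_CARDG := by
  intro m k M N hk hpar
  obtain ⟨C, F, hF⟩ := hpar
  have hk0 : k ≠ 0 := by omega
  have hkR : (k : ℝ) ≠ 0 := by exact_mod_cast hk0
  set K : ℝ := (C : ℝ) ^ ((1 : ℝ) / k) with hK
  have hK0 : 0 ≤ K := by positivity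
  refine ⟨(2 * K + 1) ^ 2, fun H => ?_⟩
  obtain ⟨hinj, hb⟩ := hF H
  set Y : ℝ := ((H : ℝ) + 1) ^ ((1 : ℝ) / k) with hY
  have hY1 : 1 ≤ Y := Real.one_le_rpow (by linarith [(Nat.cast_nonneg H : (0 : ℝ) ≤ H)])
    (by positivity)
  set n : ℤ := ⌊K * Y⌋ with hn
  have hKY : 0 ≤ K * Y := by positivity
  have hn0 : 0 ≤ n := Int.floor_nonneg.2 hKY
  have key : ∀ x : ℤ, x.natAbs ^ k ≤ C * H → x ∈ Finset.Icc (-n) n := by
    intro x hx
    have h1 : ((x.natAbs : ℕ) : ℝ) ≤ K * Y := by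
      have h2 : ((x.natAbs : ℕ) : ℝ) ^ k ≤ (C : ℝ) * (H + 1) := by
        have h3 : ((x.natAbs ^ k : ℕ) : ℝ) ≤ ((C * H : ℕ) : ℝ) := Nat.cast_le.2 hx
        push_cast at h3
        have h4 : (0 : ℝ) ≤ C := Nat.cast_nonneg _
        nlinarith
      have h5 : (K * Y) ^ k = (C : ℝ) * (H + 1) := by
        rw [mul_pow, hK, hY, ← Real.rpow_natCast, ← Real.rpow_natCast,
          ← Real.rpow_mul (Nat.cast_nonneg _), ← Real.rpow_mul (by positivity),
          one_div_mul_cancel hkR, Real.rpow_one, Real.rpow_one]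
      rw [← h5] at h2
      exact (pow_le_pow_iff_left₀ (Nat.cast_nonneg _) hKY hk0).1 h2
    have h6 : ((|x| : ℤ) : ℝ) ≤ K * Y := by
      have e : ((|x| : ℤ) : ℝ) = ((x.natAbs : ℕ) : ℝ) := by
        rw [Int.abs_eq_natAbs]
        rfl
      rw [e]
      exact h1
    have h7 : |x| ≤ n := Int.le_floor.2 h6
    rw [Finset.mem_Icc]
    exact abs_le.1 h7
  have hcard : (Cv m H).card ≤ (Finset.Icc (-n) n ×ˢ Finset.Icc (-n) n).card := by
    refine Finset.card_le_card_of_injOn F ?_ hinj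
    intro c hc
    obtain ⟨_, _, _, _, h1, h2, _⟩ := hb c hc
    rw [Finset.coe_product]
    exact ⟨key _ h1, key _ h2⟩
  have hc2 : ((Finset.Icc (-n) n).card : ℝ) ≤ 2 * (K * Y) + 1 := by
    rw [Int.card_Icc]
    have h1 : (n : ℝ) ≤ K * Y := Int.floor_le _
    have h2 : (((n + 1 - -n).toNat : ℕ) : ℝ) = 2 * n + 1 := by
      have h3 : (((n + 1 - -n).toNat : ℕ) : ℤ) = n + 1 - -n := Int.toNat_of_nonneg (by omega)
      have h4 : (((n + 1 - -n).toNat : ℕ) : ℝ) = ((n + 1 - -n : ℤ) : ℝ) := by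
        rw [← h3]
        push_cast
        rfl
      rw [h4]
      push_cast
      ring
    rw [h2]
    linarith
  have h3 : ((Finset.Icc (-n) n).card : ℝ) ≤ (2 * K + 1) * Y := by nlinarith
  calc ((Cv m H).card : ℝ) ≤ ((Finset.Icc (-n) n ×ˢ Finset.Icc (-n) n).card : ℝ) :=
        Nat.cast_le.2 hcard
    _ = ((Finset.Icc (-n) n).card : ℝ) * ((Finset.Icc (-n) n).card : ℝ) := by
        rw [Finset.card_product]; push_cast; rfl
    _ ≤ ((2 * K + 1) * Y) * ((2 * K + 1) * Y) :=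
        mul_le_mul h3 h3 (Nat.cast_nonneg _) (by positivity)
    _ = (2 * K + 1) ^ 2 * (Y * Y) := by ring
    _ = (2 * K + 1) ^ 2 * ((H : ℝ) + 1) ^ ((2 : ℝ) / k) := by
        rw [hY, ← Real.rpow_add (by positivity)]
        congr 2
        ring

end Pool.Agent.N713.EC
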